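import Pool.Agent.Lib.MP_c7af3c_ag.T2C.H26.Asm2
import Pool.Agent.Lib.MP_c7af3c_ag.T2C.H26.Seam
import Pool.Agent.Lib.MP_c7af3c_ag.T2C.H26.Ker
import Pool.Agent.Lib.MP_c7af3c_ag.T2C.H14.Plane
import Pool.Agent.Lib.MP_c7af3c_ag.T2.H26.Final
import Pool.Agent.Lib.MP_c7af3c_ag.T2C.H59.Loc
import Pool.Agent.Lib.MP_c7af3c_ag.T2C.H59.Taub
import Pool.Agent.Lib.MP_c7af3c_ag.T2C.H59.N3
import Pool.Agent.Lib.MP_c7af3c_ag.T2C.H19.N3zw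
import Pool.Agent.Lib.MP_c7af3c_ag.T2C.H19.Hull
import Pool.Agent.Lib.MP_c7af3c_ag.T2C.H19.Vanb
import Pool.Agent.Lib.MP_c7af3c_ag.T2C.H19.Wordb
import Pool.Agent.Lib.MP_c7af3c_ag.T2C.H75.W2
import Pool.Agent.Lib.MP_c7af3c_ag.T2C.H52.Ann
import Pool.Agent.Lib.MP_c7af3c_ag.T2C.H52.Hl5c
import Pool.Agent.Lib.MP_c7af3c_ag.T2C.H12.Nopl
import Pool.Agent.Lib.MP_c7af3c_ag.T2C.H12.Reg
import Pool.Agent.Lib.MP_c7af3c_ag.T2C.H2.Exta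
import Pool.Agent.Lib.MP_c7af3c_ag.T2C.H2.N3asm
import Pool.Agent.Lib.MP_c7af3c_ag.T2C.H9.Enda
import Pool.Agent.Lib.MP_c7af3c_ag.T2C.H11.K25
import Pool.Agent.Lib.MP_c7af3c_ag.T2C.H49.Asma
import Pool.Agent.Lib.MP_c7af3c_ag.T2C.H65.LineFin
import Pool.Agent.Lib.MP_c7af3c_ag.T2C.H79.Rk1
import Pool.Agent.Lib.MP_c7af3c_ag.T2C.H76.Atk
import Pool.Agent.Lib.MP_c7af3c_ag.T2C.H53.BetaAll
import Pool.Agent.Lib.MP_c7af3c_ag.T2C.H78.N3s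
import Pool.Agent.Lib.MP_c7af3c_ag.T2C.H39.N3US
import Pool.Agent.Lib.MP_c7af3c_ag.T2C.H60.N3uc
import Pool.Agent.Lib.MP_c7af3c_ag.T2C.H87.N3Q
import Pool.Agent.Lib.MP_c7af3c_ag.T2C.H16.Corea

/-!
# MP_c7af3c_ag, project T2C: the height inequality for the threefolds with `K = O(1)`, `c ≥ 2`
-/

set_option autoImplicit false

namespace Pool.Agent.T2C.H54

open Pool.Agent.Edge Pool.Agent.T2C

theorem no3 : No3Statement :=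
  H2.n3asm C2.H59.ld T2.H26.dex H12.nopl H78.n3s H59.n3c NO3.n3us H60.n3uc NO3.n3q H19.n3zst

/-- The height inequality, from the row COREA. -/
theorem hbe_of (corea : CoreaStatement) (n c : ℕ) (d : Fin c → ℕ) (hc : 2 ≤ c)
    (hd : ∀ m, 2 ≤ d m) (hn : n = c + 3) (hs : ∑ m, d m = n + 2) (j0 : Fin (n + 1)) :
    HBE n c d j0 :=
  H26.asm2 C2.H59.ld T2.H26.dex H26.ker H59.loc H59.taub H19.hull H19.vanb H75.w2 H19.wordb
    H52.ann0 H52.ann1 H12.nopl no3 H12.reg H2.exta corea H9.enda H11.k25 H49.asma H65.lineSt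
    H79.rk1 H76.atk H53.beta H26.seam T2.H52.ultra2 n c d hn hs hd hc (H52.hl5c n c d hn hs hd)
    (H26.planeAt H14.plane hn hs hd hc) j0

/-- The height inequality for the threefolds with `K = O(1)`, `c ≥ 2`. -/
theorem hbe (n c : ℕ) (d : Fin c → ℕ) (hc : 2 ≤ c) (hd : ∀ m, 2 ≤ d m) (hn : n = c + 3)
    (hs : ∑ m, d m = n + 2) (j0 : Fin (n + 1)) : HBE n c d j0 :=
  hbe_of H16.corea n c d hc hd hn hs j0

end Pool.Agent.T2C.H54
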